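import Mathlib
import Pool.Agent.Q24.IAS.Defs
import Pool.Agent.Q24.IAS.Main

/-! # Residually finite `Out` without inner automorphism separability

The definitions are in `Pool.Agent.Q24.IAS.Defs`: `ResiduallyFin G` (every non-trivial element
survives in a finite group), `Inn G`, `Out G = Aut G / Inn G`, `indAut K ψ` (the automorphism
`g K ↦ ψ(g) K` of `G/K` for a characteristic subgroup `K`) and `InnerAutSep G` (every non-inner
automorphism of `G` induces a non-inner automorphism of `G/K` for some characteristic subgroup `K`
of finite index).
-/

namespace Pool.Agent.Results.MP_48d09b_al.NotIAS

open Q24.IAS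

/-- There is a finitely generated residually finite group `G` such that `Out G` is infinite and
residually finite but `G` is not inner automorphism separable. -/
theorem result : ∃ (G : Type) (_ : Group G), Group.FG G ∧ ResiduallyFin G ∧ Infinite (Out G) ∧
    ResiduallyFin (Out G) ∧ ¬ InnerAutSep G :=
  main

end Pool.Agent.Results.MP_48d09b_al.NotIAS
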